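import Mathlib

/-!
# MP_b2b51b_an: an open semigroup in the disc algebra for which `lim d(a^n)^(1/n)` fails to exist

`S` is the set of all functions `f` in the disc algebra without zeros on the unit circle such that
either the winding number of `f` is even, or it is odd and `f` has a zero of modulus less
than `1/2`. For `a = z` one has `d(a^n) ≥ 1` for even `n` and `d(a^n) ≤ (1/2)^n` for odd `n`.
-/

open Metric Set Filter Topology

namespace Pool.Agent.Results.MP_b2b51b_an.SemigroupNoLimit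

noncomputable section

/-- The closed unit disc. -/
abbrev D : Type := closedBall (0 : ℂ) 1

/-- Extension of a function on the closed disc to the plane by zero. -/
def ext (f : C(D, ℂ)) : ℂ → ℂ := Function.extend Subtype.val f 0

theorem ext_apply (f : C(D, ℂ)) (z : ℂ) (hz : z ∈ closedBall (0 : ℂ) 1) :
    ext f z = f ⟨z, hz⟩ :=
  Subtype.val_injective.extend_apply f 0 (⟨z, hz⟩ : D)

theorem ext_continuousOn (f : C(D, ℂ)) : ContinuousOn (ext f) (closedBall 0 1) := by
  rw [continuousOn_iff_continuous_domRestrict]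
  have : (closedBall (0 : ℂ) 1).domRestrict (ext f) = f := by
    funext z
    exact ext_apply f z z.2
  rw [this]
  exact f.continuous

/-- The disc algebra: continuous functions on the closed disc, holomorphic inside. -/
def DA : Subalgebra ℂ C(D, ℂ) where
  carrier := {f | DifferentiableOn ℂ (ext f) (ball 0 1)}
  mul_mem' := by
    intro f g hf hg
    refine (DifferentiableOn.mul hf hg).congr (fun z hz => ?_)
    rw [ext_apply _ z (ball_subset_closedBall hz)]
    simp only [Pi.mul_apply]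
    rw [ext_apply _ z (ball_subset_closedBall hz), ext_apply _ z (ball_subset_closedBall hz)]
    rfl
  add_mem' := by
    intro f g hf hg
    refine (DifferentiableOn.add hf hg).congr (fun z hz => ?_)
    rw [ext_apply _ z (ball_subset_closedBall hz)]
    simp only [Pi.add_apply]
    rw [ext_apply _ z (ball_subset_closedBall hz), ext_apply _ z (ball_subset_closedBall hz)]
    rfl
  algebraMap_mem' := by
    intro r
    refine (differentiableOn_const r).congr (fun z hz => ?_)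
    rw [ext_apply _ z (ball_subset_closedBall hz)]
    rfl

theorem isClosed_DA : IsClosed (DA : Set C(D, ℂ)) := by
  apply IsSeqClosed.isClosed
  intro u f hu hf
  rw [ContinuousMap.tendsto_iff_tendstoUniformly] at hf
  have h : TendstoUniformlyOn (fun n => ext (u n)) (ext f) atTop (ball 0 1) := by
    rw [Metric.tendstoUniformly_iff] at hf
    rw [Metric.tendstoUniformlyOn_iff]
    intro ε hε
    filter_upwards [hf ε hε] with n hn z hz
    rw [ext_apply _ z (ball_subset_closedBall hz), ext_apply _ z (ball_subset_closedBall hz)]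
    exact hn _
  exact h.tendstoLocallyUniformlyOn.differentiableOn (Filter.Eventually.of_forall hu)
    isOpen_ball

instance : CompleteSpace DA := isClosed_DA.completeSpace_coe

instance : NormOneClass DA := by
  refine ⟨?_⟩
  have h : ‖(1 : DA)‖ = ‖(1 : C(D, ℂ))‖ := rfl
  have : Nonempty D := ⟨⟨0, by simp⟩⟩
  rw [h, norm_one]

/-- The function on the disc given by an element of the disc algebra. -/
def fn (f : DA) : ℂ → ℂ := ext (f : C(D, ℂ))

theorem fn_apply (f : DA) (z : ℂ) (hz : z ∈ closedBall (0 : ℂ) 1) :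
    fn f z = (f : C(D, ℂ)) ⟨z, hz⟩ := ext_apply _ z hz

theorem fn_continuousOn (f : DA) : ContinuousOn (fn f) (closedBall 0 1) := ext_continuousOn _

theorem fn_mul (f g : DA) (z : ℂ) (hz : z ∈ closedBall (0 : ℂ) 1) :
    fn (f * g) z = fn f z * fn g z := by
  rw [fn_apply _ z hz, fn_apply _ z hz, fn_apply _ z hz]; rfl

theorem fn_one (z : ℂ) (hz : z ∈ closedBall (0 : ℂ) 1) : fn 1 z = 1 := by
  rw [fn_apply _ z hz]; rfl

theorem fn_sub (f g : DA) (z : ℂ) (hz : z ∈ closedBall (0 : ℂ) 1) :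
    fn (f - g) z = fn f z - fn g z := by
  rw [fn_apply _ z hz, fn_apply _ z hz, fn_apply _ z hz]; rfl

theorem fn_pow (f : DA) (n : ℕ) (z : ℂ) (hz : z ∈ closedBall (0 : ℂ) 1) :
    fn (f ^ n) z = (fn f z) ^ n := by
  induction n with
  | zero => rw [pow_zero, pow_zero, fn_one z hz]
  | succ n ih => rw [pow_succ, pow_succ, fn_mul _ _ z hz, ih]

theorem fn_le (f : DA) (z : ℂ) (hz : z ∈ closedBall (0 : ℂ) 1) : ‖fn f z‖ ≤ ‖f‖ := by
  rw [fn_apply _ z hz]
  exact ContinuousMap.norm_coe_le_norm (f : C(D, ℂ)) _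

/-- A function close to `F` on the circle equals `F` times a square. -/
theorem perturb (F G : ℂ → ℂ) (hF : ContinuousOn F (sphere 0 1))
    (hG : ContinuousOn G (sphere 0 1)) (h : ∀ z ∈ sphere (0 : ℂ) 1, ‖G z - F z‖ < ‖F z‖) :
    ∃ q : ℂ → ℂ, ContinuousOn q (sphere 0 1) ∧ ∀ z ∈ sphere (0 : ℂ) 1, q z ≠ 0 ∧
      G z = F z * q z ^ 2 := by
  have hF0 : ∀ z ∈ sphere (0 : ℂ) 1, F z ≠ 0 := by
    intro z hz h0
    have := h z hz
    rw [h0, norm_zero] at this
    exact absurd this (not_lt.2 (norm_nonneg _))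
  have hre : ∀ z ∈ sphere (0 : ℂ) 1, 0 < (G z / F z).re := by
    intro z hz
    have h1 : ‖G z / F z - 1‖ < 1 := by
      have : G z / F z - 1 = (G z - F z) / F z := by
        field_simp [hF0 z hz]
      rw [this, norm_div, div_lt_one (norm_pos_iff.2 (hF0 z hz))]
      exact h z hz
    have h2 := Complex.abs_re_le_norm (G z / F z - 1)
    rw [Complex.sub_re, Complex.one_re] at h2
    have := (abs_lt.1 (lt_of_le_of_lt h2 h1)).1
    linarith
  refine ⟨fun z => Complex.exp (Complex.log (G z / F z) / 2), ?_, fun z hz => ⟨?_, ?_⟩⟩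
  · apply ContinuousOn.cexp
    apply ContinuousOn.div_const
    apply ContinuousOn.clog (hG.div hF hF0)
    intro z hz
    exact Or.inl (hre z hz)
  · exact Complex.exp_ne_zero _
  · have h0 : G z / F z ≠ 0 := by
      intro h1
      have := hre z hz
      rw [h1] at this
      simp at this
    rw [← Complex.exp_nat_mul]
    have : ((2 : ℕ) : ℂ) * (Complex.log (G z / F z) / 2) = Complex.log (G z / F z) := by
      push_cast; ring
    rw [this, Complex.exp_log h0]
    field_simp [hF0 z hz]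

/-- There is no continuous square root of `z` on the unit circle. -/
theorem no_sqrt (g : ℂ → ℂ) (hg : ContinuousOn g (sphere 0 1)) :
    ¬ ∀ z ∈ sphere (0 : ℂ) 1, z = g z ^ 2 := by
  intro h
  let e : ℝ → ℂ := fun t => Complex.exp (t * Complex.I)
  have he : ∀ t, e t ∈ sphere (0 : ℂ) 1 := by
    intro t
    rw [mem_sphere_zero_iff_norm]
    exact Complex.norm_exp_ofReal_mul_I t
  have hec : Continuous e := by fun_prop
  let φ : ℝ → ℂ := fun t => g (e t) * Complex.exp (-(t * Complex.I / 2))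
  have hφ : Continuous φ := by
    apply Continuous.mul
    · exact hg.comp_continuous hec he
    · fun_prop
  have hsq : ∀ t, φ t ^ 2 = 1 := by
    intro t
    have h1 := h (e t) (he t)
    have : φ t ^ 2 = (g (e t)) ^ 2 * Complex.exp (-(t * Complex.I)) := by
      simp only [φ]
      rw [mul_pow, ← Complex.exp_nat_mul]
      congr 2
      push_cast; ring
    rw [this, ← h1, ← Complex.exp_add, add_neg_cancel, Complex.exp_zero]
  have hor := isPreconnected_univ.eq_one_or_eq_neg_one_of_sq_eq (f := φ) hφ.continuousOn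
    (fun t _ => hsq t)
  have h0 : φ 0 = g 1 := by simp [φ, e]
  have h2 : φ (2 * Real.pi) = - g 1 := by
    have h3 : e (2 * Real.pi) = 1 := by
      simp only [e]
      push_cast
      exact Complex.exp_two_pi_mul_I
    have h4 : Complex.exp (-(((2 * Real.pi : ℝ) : ℂ) * Complex.I / 2)) = -1 := by
      have : -(((2 * Real.pi : ℝ) : ℂ) * Complex.I / 2) = -(Real.pi * Complex.I) := by
        push_cast; ring
      rw [this, Complex.exp_neg, Complex.exp_pi_mul_I]
      norm_num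
    simp only [φ]
    rw [h3, h4]; ring
  have hg1 : g 1 ≠ 0 := by
    intro h3
    have := hsq 0
    rw [h0, h3] at this
    norm_num at this
  have : φ 0 = φ (2 * Real.pi) := by
    rcases hor with h3 | h3
    · rw [h3 (mem_univ _), h3 (mem_univ _)]; rfl
    · rw [h3 (mem_univ _), h3 (mem_univ _)]; rfl
  rw [h0, h2] at this
  have h5 : g 1 = 0 := by
    have h6 : (2 : ℂ) * g 1 = 0 := by linear_combination this
    simpa using h6
  exact hg1 h5

/-- A zero inside the disc of a function without zeros on the circle is stable. -/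
theorem hurwitz (f : DA) (hf : ∀ z ∈ sphere (0 : ℂ) 1, fn f z ≠ 0) (z₀ : ℂ)
    (hz₀ : z₀ ∈ ball (0 : ℂ) (1 / 2)) (h0 : fn f z₀ = 0) :
    ∃ δ > 0, ∀ g : DA, ‖g - f‖ < δ → ∃ z ∈ ball (0 : ℂ) (1 / 2), fn g z = 0 := by
  have hball : ball (0 : ℂ) (1 / 2) ⊆ ball 0 1 := ball_subset_ball (by norm_num)
  have han : AnalyticOnNhd ℂ (fn f) (ball 0 1) :=
    DifferentiableOn.analyticOnNhd f.2 isOpen_ball
  -- `f` does not vanish identically near `z₀`
  have hne : ∀ᶠ z in 𝓝[≠] z₀, fn f z ≠ 0 := by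
    rcases (han z₀ (hball hz₀)).eventually_eq_zero_or_eventually_ne_zero with h | h
    · exfalso
      have h1 : EqOn (fn f) 0 (ball 0 1) :=
        han.eqOn_zero_of_preconnected_of_eventuallyEq_zero
          (convex_ball _ _).isPreconnected (hball hz₀) h
      have h2 : EqOn (fn f) 0 (closure (ball 0 1)) := by
        refine h1.of_subset_closure ?_ continuousOn_const subset_closure le_rfl
        rw [closure_ball _ one_ne_zero]
        exact fn_continuousOn _
      rw [closure_ball _ one_ne_zero] at h2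
      exact hf 1 (by simp) (h2 (by simp))
    · exact h
  obtain ⟨r, hr0, hr⟩ : ∃ r > 0, closedBall z₀ r ⊆ ball 0 (1 / 2) ∧
      ∀ z ∈ closedBall z₀ r, z ≠ z₀ → fn f z ≠ 0 := by
    rw [eventually_nhdsWithin_iff] at hne
    have h0' : ∀ᶠ z in 𝓝 z₀, z ∈ ball (0 : ℂ) (1 / 2) := isOpen_ball.mem_nhds hz₀
    have h1 : ∀ᶠ z in 𝓝 z₀, z ∈ ball (0 : ℂ) (1 / 2) ∧ (z ≠ z₀ → fn f z ≠ 0) :=
      h0'.and hne
    obtain ⟨r, hr0, hr⟩ := Metric.nhds_basis_closedBall.eventually_iff.1 h1
    exact ⟨r, hr0, fun z hz => (hr hz).1, fun z hz => (hr hz).2⟩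
  have hcb : closedBall z₀ r ⊆ closedBall 0 1 :=
    hr.1.trans (hball.trans ball_subset_closedBall)
  have hsph : (sphere z₀ r).Nonempty := by
    rw [NormedSpace.sphere_nonempty]; exact hr0.le
  obtain ⟨w, hw, hmin⟩ := (isCompact_sphere z₀ r).exists_isMinOn hsph
    (((fn_continuousOn f).mono
      (sphere_subset_closedBall.trans hcb)).norm)
  set m := ‖fn f w‖ with hm
  have hm0 : 0 < m := by
    rw [hm, norm_pos_iff]
    apply hr.2 w (sphere_subset_closedBall hw)
    intro h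
    rw [h] at hw
    simp at hw
    exact hr0.ne hw
  refine ⟨m / 4, by positivity, fun g hg => ?_⟩
  by_contra hcon
  push Not at hcon
  have hgn : ∀ z ∈ closure (ball z₀ r), fn g z ≠ 0 := by
    intro z hz
    rw [closure_ball _ hr0.ne'] at hz
    exact hcon z (hr.1 hz)
  have hd : DiffContOnCl ℂ (fn g) (ball z₀ r) := by
    refine ⟨DifferentiableOn.mono g.2
      (ball_subset_closedBall.trans (hr.1.trans hball)), ?_⟩
    rw [closure_ball _ hr0.ne']
    exact (fn_continuousOn g).mono hcb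
  have hd2 := hd.inv hgn
  have hclose : ∀ z ∈ closedBall z₀ r, ‖fn g z - fn f z‖ < m / 4 := by
    intro z hz
    rw [← fn_sub _ _ z (hcb hz)]
    exact lt_of_le_of_lt (fn_le _ z (hcb hz)) hg
  have hbd : ∀ z ∈ frontier (ball z₀ r), ‖(fn g)⁻¹ z‖ ≤ (3 * m / 4)⁻¹ := by
    intro z hz
    rw [frontier_ball _ hr0.ne'] at hz
    rw [Pi.inv_apply, norm_inv]
    apply inv_anti₀ (by positivity)
    have h1 : m ≤ ‖fn f z‖ := hmin hz
    have h2 := hclose z (sphere_subset_closedBall hz)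
    have h3 := norm_sub_norm_le (fn f z) (fn g z)
    rw [norm_sub_rev] at h3
    linarith
  have hz₀cl : z₀ ∈ closure (ball z₀ r) := subset_closure (mem_ball_self hr0)
  have key := Complex.norm_le_of_forall_mem_frontier_norm_le isBounded_ball hd2 hbd hz₀cl
  rw [Pi.inv_apply, norm_inv] at key
  have h1 := hclose z₀ (mem_closedBall_self hr0.le)
  rw [h0, sub_zero] at h1
  have h2 : 0 < ‖fn g z₀‖ := norm_pos_iff.2 (hgn z₀ hz₀cl)
  have h3 := (inv_le_inv₀ h2 (by positivity)).1 key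
  linarith

/-- The open semigroup. -/
def S : Set DA :=
  {f | (∀ z ∈ sphere (0 : ℂ) 1, fn f z ≠ 0) ∧
    ((∃ g : ℂ → ℂ, ContinuousOn g (sphere 0 1) ∧ ∀ z ∈ sphere (0 : ℂ) 1, fn f z = g z ^ 2) ∨
    ((∃ g : ℂ → ℂ, ContinuousOn g (sphere 0 1) ∧ ∀ z ∈ sphere (0 : ℂ) 1, fn f z = z * g z ^ 2) ∧
      ∃ z ∈ ball (0 : ℂ) (1 / 2), fn f z = 0))}

theorem half_sub {z : ℂ} (hz : z ∈ ball (0 : ℂ) (1 / 2)) : z ∈ closedBall (0 : ℂ) 1 :=
  ball_subset_closedBall (ball_subset_ball (by norm_num) hz)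

theorem mul_mem (f g : DA) (hf : f ∈ S) (hg : g ∈ S) : f * g ∈ S := by
  obtain ⟨hf0, hf1⟩ := hf
  obtain ⟨hg0, hg1⟩ := hg
  refine ⟨fun z hz => ?_, ?_⟩
  · rw [fn_mul _ _ z (sphere_subset_closedBall hz)]
    exact mul_ne_zero (hf0 z hz) (hg0 z hz)
  rcases hf1 with ⟨u, hu, hfu⟩ | ⟨⟨u, hu, hfu⟩, p, hp, hfp⟩
  · rcases hg1 with ⟨v, hv, hgv⟩ | ⟨⟨v, hv, hgv⟩, q, hq, hgq⟩
    · refine Or.inl ⟨fun z => u z * v z, hu.mul hv, fun z hz => ?_⟩
      rw [fn_mul _ _ z (sphere_subset_closedBall hz), hfu z hz, hgv z hz]; ring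
    · refine Or.inr ⟨⟨fun z => u z * v z, hu.mul hv, fun z hz => ?_⟩, q, hq, ?_⟩
      · rw [fn_mul _ _ z (sphere_subset_closedBall hz), hfu z hz, hgv z hz]; ring
      · rw [fn_mul _ _ q (half_sub hq), hgq, mul_zero]
  · rcases hg1 with ⟨v, hv, hgv⟩ | ⟨⟨v, hv, hgv⟩, q, hq, hgq⟩
    · refine Or.inr ⟨⟨fun z => u z * v z, hu.mul hv, fun z hz => ?_⟩, p, hp, ?_⟩
      · rw [fn_mul _ _ z (sphere_subset_closedBall hz), hfu z hz, hgv z hz]; ring
      · rw [fn_mul _ _ p (half_sub hp), hfp, zero_mul]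
    · refine Or.inl ⟨fun z => z * (u z * v z), continuousOn_id.mul (hu.mul hv), fun z hz => ?_⟩
      rw [fn_mul _ _ z (sphere_subset_closedBall hz), hfu z hz, hgv z hz]; ring

theorem isOpen_S : IsOpen S := by
  rw [Metric.isOpen_iff]
  rintro f ⟨hf0, hf1⟩
  have hsph : (sphere (0 : ℂ) 1).Nonempty := by
    rw [NormedSpace.sphere_nonempty]; exact zero_le_one
  obtain ⟨w, hw, hmin⟩ := (isCompact_sphere (0 : ℂ) 1).exists_isMinOn hsph
    (((fn_continuousOn f).mono sphere_subset_closedBall).norm)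
  set m := ‖fn f w‖ with hm
  have hm0 : 0 < m := norm_pos_iff.2 (hf0 w hw)
  have hclose : ∀ g : DA, ‖g - f‖ < m → ∀ z ∈ sphere (0 : ℂ) 1,
      ‖fn g z - fn f z‖ < ‖fn f z‖ := by
    intro g hg z hz
    rw [← fn_sub _ _ z (sphere_subset_closedBall hz)]
    refine lt_of_lt_of_le (lt_of_le_of_lt (fn_le _ z (sphere_subset_closedBall hz)) hg) ?_
    exact hmin hz
  have hne : ∀ g : DA, ‖g - f‖ < m → ∀ z ∈ sphere (0 : ℂ) 1, fn g z ≠ 0 := by
    intro g hg z hz h0
    have := hclose g hg z hz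
    rw [h0, zero_sub, norm_neg] at this
    exact lt_irrefl _ this
  have hpert : ∀ g : DA, ‖g - f‖ < m → ∃ q : ℂ → ℂ, ContinuousOn q (sphere 0 1) ∧
      ∀ z ∈ sphere (0 : ℂ) 1, q z ≠ 0 ∧ fn g z = fn f z * q z ^ 2 := by
    intro g hg
    exact perturb _ _ ((fn_continuousOn _).mono sphere_subset_closedBall)
      ((fn_continuousOn _).mono sphere_subset_closedBall) (hclose g hg)
  rcases hf1 with ⟨u, hu, hfu⟩ | ⟨⟨u, hu, hfu⟩, p, hp, hfp⟩
  · refine ⟨m, hm0, fun g hg => ?_⟩
    rw [mem_ball, dist_eq_norm] at hg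
    obtain ⟨q, hq, hgq⟩ := hpert g hg
    refine ⟨hne g hg, Or.inl ⟨fun z => u z * q z, hu.mul hq, fun z hz => ?_⟩⟩
    rw [(hgq z hz).2, hfu z hz]; ring
  · obtain ⟨δ, hδ, hh⟩ := hurwitz f hf0 p hp hfp
    refine ⟨min m δ, lt_min hm0 hδ, fun g hg => ?_⟩
    rw [mem_ball, dist_eq_norm] at hg
    have hg1 := lt_of_lt_of_le hg (min_le_left _ _)
    have hg2 := lt_of_lt_of_le hg (min_le_right _ _)
    obtain ⟨q, hq, hgq⟩ := hpert g hg1
    refine ⟨hne g hg1, Or.inr ⟨⟨fun z => u z * q z, hu.mul hq, fun z hz => ?_⟩, hh g hg2⟩⟩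
    rw [(hgq z hz).2, hfu z hz]; ring

/-- The coordinate function. -/
def zz : DA := ⟨⟨Subtype.val, continuous_subtype_val⟩, by
  refine differentiableOn_id.congr (fun z hz => ?_)
  rw [ext_apply _ z (ball_subset_closedBall hz)]; rfl⟩

theorem fn_zz (z : ℂ) (hz : z ∈ closedBall (0 : ℂ) 1) : fn zz z = z := by
  rw [fn_apply _ z hz]; rfl

theorem zz_mem : zz ∈ S := by
  refine ⟨fun z hz => ?_, Or.inr ⟨⟨fun _ => 1, continuousOn_const, fun z hz => ?_⟩,
    0, by simp, ?_⟩⟩
  · rw [fn_zz z (sphere_subset_closedBall hz)]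
    rintro rfl
    simp at hz
  · rw [fn_zz z (sphere_subset_closedBall hz)]; ring
  · exact fn_zz 0 (by simp)

theorem zero_notMem : (0 : DA) ∉ S := by
  rintro ⟨h, -⟩
  refine h 1 (by simp) ?_
  rw [fn_apply _ 1 (by simp)]; rfl

theorem even_dist (n : ℕ) : 1 ≤ infDist (zz ^ (2 * n)) Sᶜ := by
  rw [le_infDist ⟨0, zero_notMem⟩]
  intro g hg
  by_contra hcon
  push Not at hcon
  apply hg
  rw [dist_comm, dist_eq_norm] at hcon
  have hzn : ∀ z ∈ sphere (0 : ℂ) 1, ‖fn (zz ^ (2 * n)) z‖ = 1 := by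
    intro z hz
    rw [fn_pow _ _ z (sphere_subset_closedBall hz), fn_zz z (sphere_subset_closedBall hz),
      norm_pow, mem_sphere_zero_iff_norm.1 hz, one_pow]
  have hclose : ∀ z ∈ sphere (0 : ℂ) 1,
      ‖fn g z - fn (zz ^ (2 * n)) z‖ < ‖fn (zz ^ (2 * n)) z‖ := by
    intro z hz
    rw [hzn z hz, ← fn_sub _ _ z (sphere_subset_closedBall hz)]
    exact lt_of_le_of_lt (fn_le _ z (sphere_subset_closedBall hz)) hcon
  obtain ⟨q, hq, hgq⟩ := perturb _ _ ((fn_continuousOn _).mono sphere_subset_closedBall)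
      ((fn_continuousOn _).mono sphere_subset_closedBall) hclose
  refine ⟨fun z hz h0 => ?_, Or.inl ⟨fun z => z ^ n * q z, (continuousOn_id.pow n).mul hq,
    fun z hz => ?_⟩⟩
  · have := hclose z hz
    rw [h0, zero_sub, norm_neg] at this
    exact lt_irrefl _ this
  · rw [(hgq z hz).2, fn_pow _ _ z (sphere_subset_closedBall hz),
      fn_zz z (sphere_subset_closedBall hz)]
    ring

theorem odd_dist (n : ℕ) : infDist (zz ^ (2 * n + 1)) Sᶜ ≤ (1 / 2) ^ (2 * n + 1) := by
  set c : ℂ := (1 / 2) ^ (2 * n + 1) with hc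
  have hcn : ‖c‖ = (1 / 2) ^ (2 * n + 1) := by
    rw [hc, norm_pow]
    norm_num
  have hc1 : ‖c‖ < 1 := by
    rw [hcn]
    exact pow_lt_one₀ (by norm_num) (by norm_num) (by omega)
  have hfc : ∀ z ∈ closedBall (0 : ℂ) 1, fn (zz ^ (2 * n + 1) - algebraMap ℂ DA c) z
      = z ^ (2 * n + 1) - c := by
    intro z hz
    rw [fn_sub _ _ z hz, fn_pow _ _ z hz, fn_zz z hz, fn_apply _ z hz]
    rfl
  have hmem : zz ^ (2 * n + 1) - algebraMap ℂ DA c ∈ Sᶜ := by
    rintro ⟨-, h | ⟨-, p, hp, hfp⟩⟩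
    · obtain ⟨g, hg, hfg⟩ := h
      obtain ⟨q, hq, hgq⟩ := perturb (fun z => z ^ (2 * n + 1)) (fun z => z ^ (2 * n + 1) - c)
        (by fun_prop) (by fun_prop) (fun z hz => by
          rw [norm_pow, mem_sphere_zero_iff_norm.1 hz, one_pow]
          have : z ^ (2 * n + 1) - c - z ^ (2 * n + 1) = - c := by ring
          rw [this, norm_neg]; exact hc1)
      refine no_sqrt (fun z => g z / (z ^ n * q z)) ?_ (fun z hz => ?_)
      · refine hg.div (((continuousOn_id.pow n)).mul hq) (fun z hz => ?_)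
        refine mul_ne_zero (pow_ne_zero _ ?_) (hgq z hz).1
        rintro rfl
        simp at hz
      · have hz0 : z ≠ 0 := by
          rintro rfl
          simp at hz
        have hq0 := (hgq z hz).1
        have h1 := hfg z hz
        rw [hfc z (sphere_subset_closedBall hz)] at h1
        have h2 : z ^ (2 * n + 1) - c = z ^ (2 * n + 1) * q z ^ 2 := (hgq z hz).2
        rw [h2] at h1
        rw [div_pow, ← h1]
        field_simp
        ring
    · rw [hfc p (half_sub hp)] at hfp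
      have h1 : p ^ (2 * n + 1) = c := sub_eq_zero.1 hfp
      have h2 : ‖p‖ ^ (2 * n + 1) = (1 / 2) ^ (2 * n + 1) := by
        rw [← norm_pow, h1, hcn]
      have h3 : ‖p‖ < 1 / 2 := mem_ball_zero_iff.1 hp
      have h4 := pow_lt_pow_left₀ h3 (norm_nonneg _) (by omega : 2 * n + 1 ≠ 0)
      rw [h2] at h4
      exact lt_irrefl _ h4
  refine (infDist_le_dist_of_mem hmem).trans ?_
  rw [dist_eq_norm]
  have : zz ^ (2 * n + 1) - (zz ^ (2 * n + 1) - algebraMap ℂ DA c) = algebraMap ℂ DA c := by abel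
  rw [this]
  rw [← hcn]
  exact (norm_algebraMap' DA c).le

/-- **MP_b2b51b_an, Q1, answer no.** There are a complex (commutative) Banach algebra `A` with
identity, an open semigroup `S ≠ A` and `a ∈ S` such that `d(a^n)^(1/n)` does not converge, where
`d` is the distance to the complement of `S`. In fact `d(a^n)^(1/n) ≥ 1` for even `n` and
`d(a^n)^(1/n) ≤ 1/2` for odd `n`. -/
theorem result : ∃ (A : Type) (_ : NormedCommRing A) (_ : NormedAlgebra ℂ A),
    NormOneClass A ∧ CompleteSpace A ∧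
    ∃ S : Set A, IsOpen S ∧ (∀ a ∈ S, ∀ b ∈ S, a * b ∈ S) ∧ S ≠ univ ∧ ∃ a ∈ S,
      (∀ n : ℕ, 1 ≤ infDist (a ^ (2 * n)) Sᶜ) ∧
      (∀ n : ℕ, infDist (a ^ (2 * n + 1)) Sᶜ ≤ (1 / 2) ^ (2 * n + 1)) ∧
      ¬ ∃ L : ℝ, Tendsto (fun n : ℕ => infDist (a ^ n) Sᶜ ^ (1 / (n : ℝ))) atTop (𝓝 L) := by
  refine ⟨DA, inferInstance, inferInstance, inferInstance, inferInstance, S, isOpen_S,
    fun a ha b hb => mul_mem a b ha hb, fun h => zero_notMem (h ▸ mem_univ _), zz, zz_mem,
    even_dist, odd_dist, ?_⟩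
  rintro ⟨L, hL⟩
  have he : Tendsto (fun n : ℕ => 2 * n) atTop atTop :=
    tendsto_atTop_mono (fun n => by simp only [id]; omega) tendsto_id
  have ho : Tendsto (fun n : ℕ => 2 * n + 1) atTop atTop :=
    tendsto_atTop_mono (fun n => by simp only [id]; omega) tendsto_id
  have h1 : 1 ≤ L := by
    refine ge_of_tendsto' (hL.comp he) (fun n => ?_)
    exact Real.one_le_rpow (even_dist n) (by positivity)
  have h2 : L ≤ 1 / 2 := by
    refine le_of_tendsto' (hL.comp ho) (fun n => ?_)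
    have h3 := Real.rpow_le_rpow infDist_nonneg (odd_dist n)
      (by positivity : (0 : ℝ) ≤ 1 / ((2 * n + 1 : ℕ) : ℝ))
    refine h3.trans (le_of_eq ?_)
    rw [one_div ((2 * n + 1 : ℕ) : ℝ)]
    exact Real.pow_rpow_inv_natCast (by norm_num) (by omega)
  linarith

end

end Pool.Agent.Results.MP_b2b51b_an.SemigroupNoLimit
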